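import Pool.Agent.W209.KT.Stm

set_option autoImplicit false

open Filter MeasureTheory

namespace Pool.Agent.W927.KT

open Pool.Agent.W209.KT

/-- the linear part of `pt A` -/
noncomputable def L (A : Fin 2 → Fin 11 → ℝ) : (Fin 10 → ℝ) →ₗ[ℝ] (Fin 12 → ℝ) where
  toFun x := Fin.append x (fun j : Fin 2 => ∑ l : Fin 10, A j l.succ * x l)
  map_add' x y := by
    funext i
    refine Fin.addCases (m := 10) (n := 2) (fun i => ?_) (fun j => ?_) i
    · simp only [Pi.add_apply]
      erw [Fin.append_left, Fin.append_left, Fin.append_left]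
      rfl
    · simp only [Pi.add_apply]
      erw [Fin.append_right, Fin.append_right, Fin.append_right]
      simp [mul_add, Finset.sum_add_distrib]
  map_smul' c x := by
    funext i
    refine Fin.addCases (m := 10) (n := 2) (fun i => ?_) (fun j => ?_) i
    · simp only [Pi.smul_apply]
      erw [Fin.append_left, Fin.append_left]
      rfl
    · simp only [Pi.smul_apply]
      erw [Fin.append_right, Fin.append_right]
      simp only [Pi.smul_apply, smul_eq_mul, RingHom.id_apply, Finset.mul_sum]
      exact Finset.sum_congr rfl fun l _ => by ring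

lemma pt_eq (A : Fin 2 → Fin 11 → ℝ) (x : Fin 10 → ℝ) : pt A x = pt A 0 + L A x := by
  funext i
  refine Fin.addCases (m := 10) (n := 2) (fun i => ?_) (fun j => ?_) i
  · simp only [pt, Pi.add_apply, L, LinearMap.coe_mk, AddHom.coe_mk]
    erw [Fin.append_left, Fin.append_left, Fin.append_left]
    simp
  · simp only [pt, Pi.add_apply, L, LinearMap.coe_mk, AddHom.coe_mk]
    erw [Fin.append_right, Fin.append_right, Fin.append_right]
    simp [aff]

/-- derivatives of the moment curve -/
noncomputable def G (i : ℕ) (t : ℝ) : Fin 10 → ℝ :=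
  fun l => ((l.1 + 1).descFactorial i : ℝ) * t ^ (l.1 + 1 - i)

lemma G_deriv (i : ℕ) (t : ℝ) : HasDerivAt (G i) (G (i + 1) t) t := by
  refine hasDerivAt_pi.2 fun l => ?_
  have h := (hasDerivAt_pow (l.1 + 1 - i) t).const_mul (((l.1 + 1).descFactorial i : ℕ) : ℝ)
  refine h.congr_deriv ?_
  simp only [G]
  rw [Nat.descFactorial_succ, Nat.sub_sub]
  push_cast
  ring

lemma gam_eq : gam = G 0 := by
  funext t l
  simp [gam, G]

lemma base (A : Fin 2 → Fin 11 → ℝ) (i : ℕ) (t : ℝ) :
    HasDerivAt (fun t => L A (G i t)) (L A (G (i + 1) t)) t := by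
  have h := (LinearMap.toContinuousLinearMap (L A)).hasFDerivAt.comp_hasDerivAt t (G_deriv i t)
  exact h

lemma iter (A : Fin 2 → Fin 11 → ℝ) (i : ℕ) :
    iteratedDeriv (i + 1) (fun t => pt A (gam t)) = fun t => L A (G (i + 1) t) := by
  induction i with
  | zero =>
    rw [iteratedDeriv_one]
    funext t
    have h : (fun t => pt A (gam t)) = fun t => pt A 0 + L A (G 0 t) := by
      funext t
      rw [pt_eq, gam_eq]
    rw [h]
    exact ((base A 0 t).const_add _).deriv
  | succ n ih =>
    rw [iteratedDeriv_succ, ih]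
    funext t
    exact (base A (n + 1) t).deriv

lemma span_top (t : ℝ) : Submodule.span ℝ (Set.range fun i : Fin 10 => G (i.1 + 1) t) = ⊤ := by
  have hli : LinearIndependent ℝ (fun i : Fin 10 => G (i.1 + 1) t) := by
    have hd : (Matrix.of fun i l : Fin 10 => G (i.1 + 1) t l).det ≠ 0 := by
      rw [Matrix.det_of_upperTriangular]
      · refine Finset.prod_ne_zero_iff.2 fun i _ => ?_
        simp [G, Nat.descFactorial_self, Nat.factorial_ne_zero]
      · intro i l hl
        have h1 : l.1 + 1 < i.1 + 1 := by
          have : l < i := hl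
          have := Fin.lt_def.1 this
          omega
        simp only [Matrix.of_apply, G]
        rw [Nat.descFactorial_eq_zero_iff_lt.2 h1]
        simp
    have h2 := Matrix.linearIndependent_rows_of_det_ne_zero hd
    exact h2
  exact hli.span_eq_top_of_card_eq_finrank (by simp)

theorem nd : S_nd := by
  intro A
  constructor
  · have h : (fun t => pt A (gam t)) = fun t => pt A 0 + L A (G 0 t) := by
      funext t
      rw [pt_eq, gam_eq]
    rw [h]
    have h1 : ContDiff ℝ (⊤ : ℕ∞) (G 0) := by
      refine contDiff_pi.2 fun l => ?_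
      simp only [G]
      fun_prop
    exact contDiff_const.add ((LinearMap.toContinuousLinearMap (L A)).contDiff.comp h1)
  · intro t
    have e1 : {w : Fin 12 → ℝ | ∃ i, 1 ≤ i ∧ i ≤ 10 ∧
        w = iteratedDeriv i (fun t => pt A (gam t)) t} =
        (L A) '' (Set.range fun i : Fin 10 => G (i.1 + 1) t) := by
      ext w
      constructor
      · rintro ⟨i, hi, hi', rfl⟩
        obtain ⟨j, rfl⟩ : ∃ j, i = j + 1 := ⟨i - 1, by omega⟩
        rw [iter]
        exact ⟨_, ⟨⟨j, by omega⟩, rfl⟩, rfl⟩
      · rintro ⟨_, ⟨j, rfl⟩, rfl⟩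
        refine ⟨j.1 + 1, by omega, by omega, ?_⟩
        rw [iter]
    have e2 : {w : Fin 12 → ℝ | ∃ x y, w = pt A x - pt A y} = Set.range (L A) := by
      ext w
      constructor
      · rintro ⟨x, y, rfl⟩
        refine ⟨x - y, ?_⟩
        rw [pt_eq A x, pt_eq A y, map_sub]
        abel
      · rintro ⟨x, rfl⟩
        refine ⟨x, 0, ?_⟩
        rw [pt_eq A x]
        abel
    rw [e1, e2, Submodule.span_image, span_top, Submodule.map_top, ← LinearMap.coe_range,
      Submodule.span_eq]

end Pool.Agent.W927.KT
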